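import Pool.Agent.Helper34.R9.Sheet

/-! # Row CUBP (MP_798d7d_nt, ranks nine to eleven) -/

set_option autoImplicit false

namespace Pool.Helper34.R9

open Pool.Agent.Helper97.RK (cur)
open Pool.Helper17.RS (RS NR ST_GEN)
open Pool.Helper17.R8 (ek q4 q3 q2 q1 q0 fI fJ yv y9 xX pI pJ ST_DDIV ST_CURVE ST_PT)
open Polynomial

namespace S76

section
variable (e : ℕ → ℤ) (t : ℤ)

theorem c4 : ((q4 e t : ℤ) : ℚ) = q4 (fun k => (e k : ℚ)) (t : ℚ) := by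
  unfold q4; push_cast; ring
theorem c3 : ((q3 e t : ℤ) : ℚ) = q3 (fun k => (e k : ℚ)) (t : ℚ) := by
  unfold q3; push_cast; ring
theorem c2 : ((q2 e t : ℤ) : ℚ) = q2 (fun k => (e k : ℚ)) (t : ℚ) := by
  unfold q2; push_cast; ring
theorem c1 : ((q1 e t : ℤ) : ℚ) = q1 (fun k => (e k : ℚ)) (t : ℚ) := by
  unfold q1; push_cast; ring
theorem c0 : ((q0 e t : ℤ) : ℚ) = q0 (fun k => (e k : ℚ)) (t : ℚ) := by
  unfold q0; push_cast; ring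
theorem cI : ((fI e t : ℤ) : ℚ) = fI (fun k => (e k : ℚ)) (t : ℚ) := by
  unfold fI; push_cast; rw [c4, c3, c2, c1, c0]
theorem cJ : ((fJ e t : ℤ) : ℚ) = fJ (fun k => (e k : ℚ)) (t : ℚ) := by
  unfold fJ; push_cast; rw [c4, c3, c2, c1, c0]
theorem cX (ξ y η ζ w : ℤ) : ((xX e t ξ y η ζ w : ℤ) : ℚ) =
    xX (fun k => (e k : ℚ)) (t : ℚ) ξ y η ζ w := by
  unfold xX; push_cast; rw [c4, c3, c2, c1, c0]
end

/-- the points over the parameters -/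
theorem yv_sq (e : ℕ → ℤ) (t a : ℤ)
    (h : a ^ 8 + e 2 * a ^ 6 - e 3 * a ^ 5 + e 4 * a ^ 4 - e 5 * a ^ 3 + e 6 * a ^ 2 - e 7 * a +
      e 8 = 0) : yv e t a ^ 2 = q4 e t * (a ^ 2) ^ 4 + q3 e t * (a ^ 2) ^ 3 +
        q2 e t * (a ^ 2) ^ 2 + q1 e t * a ^ 2 + q0 e t := by
  unfold yv q4 q3 q2 q1 q0
  linear_combination (4 * (a ^ 6 + e 2 * a ^ 4 + e 4 * a ^ 2 + e 6 - t)) * h

end S76

open S76 in
/-- row CUBP -/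
theorem st_CUBP (hPT : ST_PT) : ST_CUBP := by
  intro e t A B a X Z Y hA hB ha hF hXZ hv
  have h1 := yv_sq e t a ha
  have h2 := chk_wF e t X Z Y
  rw [hF, mul_zero, add_zero] at h2
  have hne : a ^ 2 * (X * Z) - Y * Z ≠ 0 := fun h => hv (by rw [h, mul_zero])
  obtain ⟨y, hy⟩ := hPT (fun k => (e k : ℚ)) (t : ℚ) (A : ℚ) (B : ℚ) ((a ^ 2 : ℤ) : ℚ)
    ((yv e t a : ℤ) : ℚ) ((Y * Z : ℤ) : ℚ) ((X * Z : ℤ) : ℚ) ((wF e t X Z Y : ℤ) : ℚ)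
    (by rw [← cI]; exact_mod_cast hA) (by rw [← cJ]; exact_mod_cast hB)
    (by rw [← c4, ← c3, ← c2, ← c1, ← c0]; exact_mod_cast h1)
    (by rw [← c4, ← c3, ← c2, ← c1, ← c0]; exact_mod_cast h2)
    (by exact_mod_cast hXZ) (by exact_mod_cast hne)
  refine ⟨y, ?_⟩
  rw [hy, ← cX]
  have hne' : (((a ^ 2 : ℤ) : ℚ) * ((X * Z : ℤ) : ℚ) - ((Y * Z : ℤ) : ℚ)) ≠ 0 := by
    exact_mod_cast hne
  have e1 : ((xX e t (a ^ 2) (yv e t a) (Y * Z) (X * Z) (wF e t X Z Y) : ℤ) : ℚ) /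
      (12 * (((a ^ 2 : ℤ) : ℚ) * ((X * Z : ℤ) : ℚ) - ((Y * Z : ℤ) : ℚ)) ^ 2) =
      ((3 * xX e t (a ^ 2) (yv e t a) (Y * Z) (X * Z) (wF e t X Z Y) : ℤ) : ℚ) /
      ((6 * (a ^ 2 * (X * Z) - Y * Z) : ℤ) : ℚ) ^ 2 := by
    have e2 : ((6 * (a ^ 2 * (X * Z) - Y * Z) : ℤ) : ℚ) =
        6 * (((a ^ 2 : ℤ) : ℚ) * ((X * Z : ℤ) : ℚ) - ((Y * Z : ℤ) : ℚ)) := by push_cast; ring
    have e3 : ∀ x : ℤ, ((3 * x : ℤ) : ℚ) = 3 * (x : ℚ) := fun x => by push_cast; ring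
    rw [e2, e3, mul_pow]
    generalize (((a ^ 2 : ℤ) : ℚ) * ((X * Z : ℤ) : ℚ) - ((Y * Z : ℤ) : ℚ)) = D at hne'
    generalize ((xX e t (a ^ 2) (yv e t a) (Y * Z) (X * Z) (wF e t X Z Y) : ℤ) : ℚ) = x
    field_simp
    ring
  rw [e1]

end Pool.Helper34.R9
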