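import Pool.Agent.Helper34.R9.Sheet

/-! # Row LEAD (MP_798d7d_nt, ranks nine to eleven) -/

set_option autoImplicit false

namespace Pool.Helper34.R9

open Polynomial

namespace L76

/-- degree at most `n`, coefficient `c` at `n` -/
def H (P : ℤ[X]) (n : ℕ) (c : ℤ) : Prop := P.natDegree ≤ n ∧ P.coeff n = c

theorem H.mul {P Q : ℤ[X]} {n m : ℕ} {a b : ℤ} (h : H P n a) (h' : H Q m b) :
    H (P * Q) (n + m) (a * b) :=
  ⟨natDegree_mul_le.trans (Nat.add_le_add h.1 h'.1), by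
    rw [coeff_mul_add_eq_of_natDegree_le h.1 h'.1, h.2, h'.2]⟩

theorem H.add {P Q : ℤ[X]} {n : ℕ} {a b : ℤ} (h : H P n a) (h' : H Q n b) :
    H (P + Q) n (a + b) :=
  ⟨natDegree_add_le_of_degree_le h.1 h'.1, by rw [coeff_add, h.2, h'.2]⟩

theorem H.sub {P Q : ℤ[X]} {n : ℕ} {a b : ℤ} (h : H P n a) (h' : H Q n b) :
    H (P - Q) n (a - b) :=
  ⟨(natDegree_sub_le_of_le h.1 h'.1).trans (le_of_eq (max_self n)), by
    rw [coeff_sub, h.2, h'.2]⟩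

theorem H.sq {P : ℤ[X]} {n : ℕ} {a : ℤ} (h : H P n a) : H (P ^ 2) (n + n) (a ^ 2) := by
  rw [pow_two, pow_two]; exact h.mul h

theorem H.cube {P : ℤ[X]} {n : ℕ} {a : ℤ} (h : H P n a) : H (P ^ 3) (n + n + n) (a ^ 3) := by
  rw [pow_three', pow_three']; exact (h.mul h).mul h

theorem HC (κ : ℤ) : H (C κ) 0 κ := ⟨by rw [natDegree_C], by rw [coeff_C_zero]⟩

theorem Hn (n : ℕ) [n.AtLeastTwo] : H (OfNat.ofNat n : ℤ[X]) 0 (OfNat.ofNat n : ℤ) := by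
  have := HC (OfNat.ofNat n : ℤ)
  rwa [map_ofNat] at this

end L76

open L76 in
/-- row LEAD -/
theorem st_LEAD : ST_LEAD := by
  intro F G v w κ hF hG hw
  have e2 : H (F 2) 2 (v 2) := hF 2 (by norm_num)
  have e3 : H (F 3) 3 (v 3) := hF 3 (by norm_num)
  have e4 : H (F 4) 4 (v 4) := hF 4 (by norm_num)
  have e5 : H (F 5) 5 (v 5) := hF 5 (by norm_num)
  have e6 : H (F 6) 6 (v 6) := hF 6 (by norm_num)
  have e7 : H (F 7) 7 (v 7) := hF 7 (by norm_num)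
  have e8 : H (F 8) 8 (v 8) := hF 8 (by norm_num)
  have E : H G 6 w := ⟨hG, hw⟩
  have K : H (C κ) 0 κ := HC κ
  have T1 : H (C κ * F 3 ^ 2 - 4 * G) 6 (κ * v 3 ^ 2 - 4 * w) :=
    (K.mul e3.sq).sub ((Hn 4).mul E)
  have T2 : H (C κ * (F 5 ^ 2 + 2 * F 3 * F 7 - 4 * (F 8 * F 2)) - 4 * (G * F 4)) 10
      (κ * (v 5 ^ 2 + 2 * v 3 * v 7 - 4 * (v 8 * v 2)) - 4 * (w * v 4)) :=
    (K.mul ((e5.sq.add (((Hn 2).mul e3).mul e7)).sub ((Hn 4).mul (e8.mul e2)))).sub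
      ((Hn 4).mul (E.mul e4))
  have T3 : H (C κ * (F 7 ^ 2 - 4 * F 8 * F 6) + 4 * F 8 * G) 14
      (κ * (v 7 ^ 2 - 4 * v 8 * v 6) + 4 * v 8 * w) :=
    (K.mul (e7.sq.sub (((Hn 4).mul e8).mul e6))).add (((Hn 4).mul e8).mul E)
  have T4 : H (C κ * (2 * F 3 * F 5 - 4 * F 8) - 4 * (G * F 2)) 8
      (κ * (2 * v 3 * v 5 - 4 * v 8) - 4 * (w * v 2)) :=
    (K.mul ((((Hn 2).mul e3).mul e5).sub ((Hn 4).mul e8))).sub ((Hn 4).mul (E.mul e2))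
  have T5 : H (C κ ^ 2 * (2 * F 5 * F 7 - 4 * (F 8 * F 4)) - 4 * (G * (C κ * F 6 - G))) 12
      (κ ^ 2 * (2 * v 5 * v 7 - 4 * (v 8 * v 4)) - 4 * (w * (κ * v 6 - w))) :=
    (K.sq.mul ((((Hn 2).mul e5).mul e7).sub ((Hn 4).mul (e8.mul e4)))).sub
      ((Hn 4).mul (E.mul ((K.mul e6).sub E)))
  have T : H (fJh F (C κ) G) 30 (fJh v κ w) :=
    ((((((((Hn 72).mul K.sq).mul T1).mul T2).mul T3).add
      ((((((Hn 9).mul K).mul T4).mul T2).mul T5))).sub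
      (((Hn 27).mul T1).mul T5.sq)).sub
      ((((Hn 27).mul K.sq).mul T3).mul T4.sq)).sub
      (((Hn 2).mul K.sq).mul T2.cube)
  exact T

end Pool.Helper34.R9
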